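import Pool.Agent.Helper35.PQF.St

/-!
# Project PQF, module RA6B: the integral of `Q_n`
-/

set_option autoImplicit false

open Filter Topology Set MeasureTheory
open scoped ENNReal

namespace Pool.Agent.Helper90.PM

open Pool.Agent.Helper35.PM

/-! ## Continuity -/

theorem pt_mem {x θ : ℝ} (hx : x < 0) : pt x θ ∈ Metric.ball (0 : ℂ) 1 := by
  rw [mem_ball_zero_iff]
  unfold pt
  rw [Complex.norm_exp]
  have : (((x : ℂ) + (θ : ℂ) * Complex.I)).re = x := by simp
  rw [this]
  exact Real.exp_lt_one_iff.mpr hx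

theorem pt_cont : Continuous fun q : ℝ × ℝ => pt q.1 q.2 := by
  unfold pt
  fun_prop

theorem up_cont {u : ℂ → ℝ} (hu : ContinuousOn u (Metric.ball 0 1)) :
    ContinuousOn (fun q : ℝ × ℝ => u (pt q.1 q.2)) {q | q.1 < 0} :=
  hu.comp pt_cont.continuousOn fun _ hq => pt_mem hq

/-- Continuity of the four point majoration. -/
theorem efour_cont {u : ℂ → ℝ} (hu : ContinuousOn u (Metric.ball 0 1)) {δ : ℝ} (hδ : 0 < δ) :
    ContinuousOn (fun q : ℝ × ℝ => Efour u δ q.2 q.1) {q | q.2 < -δ} := by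
  have h1 : ContinuousOn (fun q : ℝ × ℝ => u (pt q.2 q.1)) {q | q.2 < -δ} :=
    (up_cont hu).comp (f := fun q : ℝ × ℝ => (q.2, q.1)) (by fun_prop)
      (fun q hq => by
        have : q.2 < -δ := hq
        change q.2 < 0
        linarith)
  have h2 : ContinuousOn (fun q : ℝ × ℝ => u (pt (q.2 + δ) q.1)) {q | q.2 < -δ} :=
    (up_cont hu).comp (f := fun q : ℝ × ℝ => (q.2 + δ, q.1)) (by fun_prop)
      (fun q hq => by
        have : q.2 < -δ := hq
        change q.2 + δ < 0
        linarith)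
  have h3 : ContinuousOn (fun q : ℝ × ℝ => u (pt (q.2 - δ) q.1)) {q | q.2 < -δ} :=
    (up_cont hu).comp (f := fun q : ℝ × ℝ => (q.2 - δ, q.1)) (by fun_prop)
      (fun q hq => by
        have : q.2 < -δ := hq
        change q.2 - δ < 0
        linarith)
  have h4 : ContinuousOn (fun q : ℝ × ℝ => u (pt q.2 (q.1 + δ))) {q | q.2 < -δ} :=
    (up_cont hu).comp (f := fun q : ℝ × ℝ => (q.2, q.1 + δ)) (by fun_prop)
      (fun q hq => by
        have : q.2 < -δ := hq
        change q.2 < 0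
        linarith)
  have h5 : ContinuousOn (fun q : ℝ × ℝ => u (pt q.2 (q.1 - δ))) {q | q.2 < -δ} :=
    (up_cont hu).comp (f := fun q : ℝ × ℝ => (q.2, q.1 - δ)) (by fun_prop)
      (fun q hq => by
        have : q.2 < -δ := hq
        change q.2 < 0
        linarith)
  have h6 : ContinuousOn (fun q : ℝ × ℝ => δ / (-q.2)) {q | q.2 < -δ} := by
    apply ContinuousOn.div continuousOn_const (by fun_prop)
    intro q hq
    have : q.2 < -δ := hq
    intro h0
    linarith
  have h7 : ContinuousOn (fun q : ℝ × ℝ => (1 + (δ / (-q.2)) ^ 4) / (1 - (δ / (-q.2)) ^ 4))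
      {q | q.2 < -δ} := by
    apply ContinuousOn.div (continuousOn_const.add (h6.pow 4)) (continuousOn_const.sub (h6.pow 4))
    intro q hq
    have hq' : q.2 < -δ := hq
    have h8 : δ / (-q.2) < 1 := by
      rw [div_lt_one (by linarith)]
      linarith
    have h9 : 0 ≤ δ / (-q.2) := div_nonneg hδ.le (by linarith)
    have h10 : (δ / (-q.2)) ^ 4 < 1 := pow_lt_one₀ h9 h8 (by norm_num)
    intro h0
    change 1 - (δ / (-q.2)) ^ 4 = 0 at h0
    linarith
  unfold Efour
  apply ContinuousOn.div_const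
  apply continuousOn_const.mul
  exact (((((continuousOn_const.mul h7).mul (h1.sub continuousOn_const)).sub
    (h2.sub continuousOn_const)).sub (h3.sub continuousOn_const)).sub
    (h4.sub continuousOn_const)).sub (h5.sub continuousOn_const)

/-- The four point majorant is nonnegative. -/
theorem efour_nonneg (ra1 : St_RA1) {u : ℂ → ℝ} {j : ℂ → ℂ → ℝ} (hP : Pot u j) {δ x θ : ℝ}
    (hδ : 0 < δ) (hx : δ < -x) : 0 ≤ Efour u δ x θ := by
  obtain ⟨-, r2, r3⟩ := ra1 u j hP
  have hx0 : x < 0 := by linarith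
  have h1 := r2 x θ δ hx0 hδ hx
  have h2 := r3 x (x + δ) θ hx0 (by linarith)
  have h3 := r3 x (x - δ) θ hx0 (by linarith)
  unfold Efour
  apply div_nonneg _ (sq_nonneg δ)
  linarith

/-! ## Integrals -/

theorem lint_ofReal {f : ℝ → ℝ} {a b : ℝ} (hab : a ≤ b) (hf : ContinuousOn f (Icc a b))
    (hn : ∀ x ∈ Ioo a b, 0 ≤ f x) :
    ∫⁻ x in Ioo a b, ENNReal.ofReal (f x) = ENNReal.ofReal (∫ x in a..b, f x) := by
  rw [intervalIntegral.integral_of_le hab, integral_Ioc_eq_integral_Ioo,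
    ofReal_integral_eq_lintegral_ofReal]
  · exact hf.integrableOn_Icc.mono_set Ioo_subset_Icc_self
  · exact (ae_restrict_mem measurableSet_Ioo).mono fun x hx => hn x hx

theorem ra6b_swap (ra1 : St_RA1) (ra2 : St_RA2) {u : ℂ → ℝ} {j : ℂ → ℂ → ℝ} (hP : Pot u j)
    {y y₁ : ℝ} (n : ℕ) (hn : (1 : ℝ) / (n + 1) < y₁ / 2) :
    ∫⁻ θ in Ioo 0 (2 * Real.pi), ∫⁻ x in Ioo (-y) (-y₁), ENNReal.ofReal (-x) * Qn u n θ x =
      ∫⁻ x in Ioo (-y) (-y₁), ENNReal.ofReal
        ((-x) * ∫ θ in (0 : ℝ)..(2 * Real.pi), Efour u (1 / ((n : ℝ) + 1)) x θ) := by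
  have hδ : (0 : ℝ) < 1 / ((n : ℝ) + 1) := by positivity
  have hu := ra2 u j hP
  have hcont := efour_cont hu hδ
  have e1 : ∫⁻ θ in Ioo 0 (2 * Real.pi), ∫⁻ x in Ioo (-y) (-y₁),
      ENNReal.ofReal (-x) * Qn u n θ x =
      ∫⁻ θ in Ioo 0 (2 * Real.pi), ∫⁻ x in Ioo (-y) (-y₁),
        ENNReal.ofReal ((-x) * Efour u (1 / ((n : ℝ) + 1)) x θ) := by
    apply lintegral_congr
    intro θ
    apply setLIntegral_congr_fun measurableSet_Ioo
    intro x hx
    have hx1 : x < -y₁ := hx.2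
    have hx0 : x < 0 := by linarith
    have e2 : Qn u n θ x = ENNReal.ofReal (Efour u (1 / ((n : ℝ) + 1)) x θ) := by
      unfold Qn
      rw [if_pos ⟨hx0, by linarith⟩]
    simp only
    rw [e2, ← ENNReal.ofReal_mul (by linarith)]
  rw [e1, lintegral_lintegral_swap]
  · apply setLIntegral_congr_fun measurableSet_Ioo
    intro x hx
    have hx1 : x < -y₁ := hx.2
    have hx0 : x < 0 := by linarith
    simp only
    rw [lint_ofReal (by positivity), intervalIntegral.integral_const_mul]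
    · apply continuousOn_const.mul
      have := hcont.comp (f := fun θ : ℝ => (θ, x)) (s := Icc 0 (2 * Real.pi)) (by fun_prop)
        (fun θ _ => by
          change x < -(1 / ((n : ℝ) + 1))
          linarith)
      exact this
    · intro θ _
      exact mul_nonneg (by linarith) (efour_nonneg ra1 hP hδ (by linarith))
  · rw [Measure.prod_restrict]
    apply ContinuousOn.aemeasurable _ (measurableSet_Ioo.prod measurableSet_Ioo)
    apply ENNReal.continuous_ofReal.comp_continuousOn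
    have h1 : ContinuousOn (fun q : ℝ × ℝ => -q.2) (Ioo 0 (2 * Real.pi) ×ˢ Ioo (-y) (-y₁)) := by
      fun_prop
    refine h1.mul (hcont.mono ?_)
    rintro ⟨θ, x⟩ ⟨-, hx⟩
    have hx1 : x < -y₁ := hx.2
    change x < -(1 / ((n : ℝ) + 1))
    linarith

theorem ra6b (ra1 : St_RA1) (ra2 : St_RA2) (ra3 : St_RA3) (ra4 : St_RA4) (ra5 : St_RA5) :
    St_RA6B := by
  intro u j hP y y₁ ε hy₁ hy hε
  obtain ⟨M, hM, hM0, hMc, hMb, hMH, hMI⟩ := ra5 u j hP
  have hanti : AntitoneOn M (Iio 0) := by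
    apply ra3 M hM0 hMb
    intro x δ hx hδ hδx
    obtain ⟨h1, h2⟩ := hMI x δ hx hδ hδx
    have h3 := h1.trans h2
    rw [le_div_iff₀ (by positivity), zero_mul] at h3
    linarith
  have hlim : Tendsto (fun n : ℕ => (1 : ℝ) / ((n : ℝ) + 1)) atTop (𝓝 0) :=
    tendsto_one_div_add_atTop_nhds_zero_nat
  have hpos : ∀ n : ℕ, (0 : ℝ) < 1 / ((n : ℝ) + 1) := fun n => by positivity
  have hlim2 : Tendsto (fun n : ℕ => (1 : ℝ) / ((n : ℝ) + 1)) atTop (𝓝[>] 0) :=
    tendsto_nhdsWithin_iff.mpr ⟨hlim, Eventually.of_forall fun n => hpos n⟩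
  have h4 := hlim2.eventually (ra4 M (-y) (-y₁) (by linarith) (by linarith) hM0 hMc hanti hMH
    (ε / 4) (by linarith))
  -- a bound for M
  obtain ⟨C, hC⟩ := hMb (-y₁) (by linarith)
  have hC0 : 0 ≤ C := (hM0 (-y₁) (by linarith)).trans (hC (-y₁) le_rfl)
  set K : ℝ := (y - y₁) * (18 * C / y₁ ^ 3) with hK
  have hKlim : Tendsto (fun n : ℕ => K * ((1 : ℝ) / ((n : ℝ) + 1)) ^ 2) atTop (𝓝 0) := by
    have := (hlim.pow 2).const_mul K
    simpa using this
  have h5 : ∀ᶠ n : ℕ in atTop, K * ((1 : ℝ) / ((n : ℝ) + 1)) ^ 2 < ε / 2 :=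
    hKlim.eventually_lt_const (by linarith)
  have h6 : ∀ᶠ n : ℕ in atTop, (1 : ℝ) / ((n : ℝ) + 1) < y₁ / 2 :=
    hlim.eventually_lt_const (by linarith)
  filter_upwards [h4, h5, h6] with n h4 h5 h6
  rw [ra6b_swap ra1 ra2 hP n h6]
  set δ : ℝ := 1 / ((n : ℝ) + 1) with hδdef
  have hδ : 0 < δ := hpos n
  -- the two parts of the majorant
  set A : ℝ → ℝ := fun x => (-x) * (2 * M x - M (x + δ) - M (x - δ)) / δ ^ 2 with hA
  set E : ℝ → ℝ := fun x => (-x) * (18 * (δ / (-x)) ^ 4 * M x) / δ ^ 2 with hE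
  have hsub : ∀ x ∈ Icc (-y) (-y₁), x ≤ -y₁ := fun x hx => hx.2
  have hcM : ContinuousOn M (Icc (-y) (-y₁)) := hMc.mono fun x hx => by
    change x < 0
    linarith [hx.2]
  have hcM1 : ContinuousOn (fun x => M (x + δ)) (Icc (-y) (-y₁)) :=
    hMc.comp (by fun_prop) fun x hx => by
      change x + δ < 0
      linarith [hx.2]
  have hcM2 : ContinuousOn (fun x => M (x - δ)) (Icc (-y) (-y₁)) :=
    hMc.comp (by fun_prop) fun x hx => by
      change x - δ < 0
      linarith [hx.2]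
  have hcA : ContinuousOn A (Icc (-y) (-y₁)) := by
    rw [hA]
    apply ContinuousOn.div_const
    exact continuousOn_neg.mul (((continuousOn_const.mul hcM).sub hcM1).sub hcM2)
  have hcE : ContinuousOn E (Icc (-y) (-y₁)) := by
    rw [hE]
    apply ContinuousOn.div_const
    have h7 : ContinuousOn (fun x : ℝ => δ / (-x)) (Icc (-y) (-y₁)) := by
      apply ContinuousOn.div continuousOn_const continuousOn_neg
      intro x hx h0
      linarith [hx.2]
    exact continuousOn_neg.mul ((continuousOn_const.mul (h7.pow 4)).mul hcM)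
  have hH : ∀ x ∈ Ioo (-y) (-y₁),
      (-x) * (∫ θ in (0 : ℝ)..(2 * Real.pi), Efour u δ x θ) ≤ 2 * A x + E x ∧
      0 ≤ (-x) * (∫ θ in (0 : ℝ)..(2 * Real.pi), Efour u δ x θ) := by
    intro x hx
    have hx1 : x < -y₁ := hx.2
    obtain ⟨g1, g2⟩ := hMI x δ (by linarith) hδ (by linarith)
    constructor
    · have g3 := mul_le_mul_of_nonneg_left g2 (show (0 : ℝ) ≤ -x by linarith)
      refine g3.trans (le_of_eq ?_)
      rw [hA, hE]
      simp only
      ring
    · exact mul_nonneg (by linarith) g1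
  have hle : ∫⁻ x in Ioo (-y) (-y₁), ENNReal.ofReal
      ((-x) * ∫ θ in (0 : ℝ)..(2 * Real.pi), Efour u δ x θ) ≤
      ∫⁻ x in Ioo (-y) (-y₁), ENNReal.ofReal (2 * A x + E x) := by
    apply setLIntegral_mono' measurableSet_Ioo
    intro x hx
    exact ENNReal.ofReal_le_ofReal (hH x hx).1
  refine hle.trans ?_
  have hcH : ContinuousOn (fun x => 2 * A x + E x) (Icc (-y) (-y₁)) :=
    (continuousOn_const.mul hcA).add hcE
  rw [lint_ofReal (by linarith) hcH (fun x hx => (hH x hx).2.trans (hH x hx).1)]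
  apply ENNReal.ofReal_le_ofReal
  have hiA : IntervalIntegrable A volume (-y) (-y₁) := by
    apply ContinuousOn.intervalIntegrable
    rwa [uIcc_of_le (by linarith)]
  have hiE : IntervalIntegrable E volume (-y) (-y₁) := by
    apply ContinuousOn.intervalIntegrable
    rwa [uIcc_of_le (by linarith)]
  rw [intervalIntegral.integral_add (hiA.const_mul 2) hiE, intervalIntegral.integral_const_mul]
  have hEle : ∫ x in (-y)..(-y₁), E x ≤ ε / 2 := by
    have g1 : ∫ x in (-y)..(-y₁), E x ≤ ∫ _x in (-y)..(-y₁), (18 * C / y₁ ^ 3) * δ ^ 2 := by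
      apply intervalIntegral.integral_mono_on (by linarith) hiE
        intervalIntegrable_const
      intro x hx
      have hx1 : x ≤ -y₁ := hx.2
      have hw : 0 < -x := by linarith
      have hMx := hM0 x (by linarith)
      have hMC : M x ≤ C := hC x hx1
      have e1 : E x = 18 * M x / (-x) ^ 3 * δ ^ 2 := by
        rw [hE]
        simp only
        field_simp
      rw [e1]
      apply mul_le_mul_of_nonneg_right _ (sq_nonneg δ)
      apply div_le_div₀ (by positivity) (by linarith) (by positivity)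
      exact pow_le_pow_left₀ hy₁.le (by linarith) 3
    rw [intervalIntegral.integral_const, smul_eq_mul] at g1
    have g2 : (-y₁ - -y) * (18 * C / y₁ ^ 3 * δ ^ 2) = K * δ ^ 2 := by
      rw [hK]
      ring
    rw [g2] at g1
    linarith
  have hAle : ∫ x in (-y)..(-y₁), A x ≤ M (-y) + ε / 4 := h4
  rw [← hM (-y)]
  linarith

end Pool.Agent.Helper90.PM
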